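import Pool.Agent.H.MP_4648ce_an.D

set_option autoImplicit false
open Set Filter Topology

namespace Pool.Agent.Results.MP_034ad4_an.Full

/-- The Gauss map. -/
noncomputable def G (x : ℝ) : ℝ := if x = 0 then 0 else 1 / x - ⌊1 / x⌋

/-- The asymptotic set of a point under the Gauss map. -/
def AS (x : ℝ) : Set ℝ :=
  {y ∈ Ico (0 : ℝ) 1 | Tendsto (fun n : ℕ => |G^[n] x - G^[n] y|) atTop (𝓝 0)}

/-- The level set of the dimension of asymptotic sets. -/
def Theta (α : ENNReal) : Set ℝ := {x ∈ Ico (0 : ℝ) 1 | dimH (AS x) = α}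

theorem result : dimH (Theta (1 / 2)) = 1 :=
  Pool.Agent.H.MP_4648ce_an.gaussFull

end Pool.Agent.Results.MP_034ad4_an.Full
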